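import Mathlib
import Pool.Agent.Lib.Pf5c9aa.Final

set_option autoImplicit false

namespace Pool.Agent.Results.MP_f5c9aa_lc.CommonSuborder

open Pool.Agent.Lib.Pf5c9aa

/-- Under `PFA⁺`, any two Baumgartner types with the same stationary index set have a common
suborder which is not `σ`-scattered. -/
theorem result (hPFA : PFAPlus) (S : Set Om) (hS : IsStationary S) (x y : Om → ℕ → Om)
    (hx : IsLadder S x) (hy : IsLadder S y) :
    ∃ (L : Type) (_ : LinearOrder L), ¬ SigmaScattered L ∧
      Nonempty (L ↪o Baumgartner S x) ∧ Nonempty (L ↪o Baumgartner S y) :=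
  common_suborder hPFA S hS x y hx hy

end Pool.Agent.Results.MP_f5c9aa_lc.CommonSuborder
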